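import Pool.Agent.W770.PC.SphStms

set_option autoImplicit false
set_option linter.all false

/-!
PC-sfib: generic fibres of the gradient maps of the phases of the sphere are finite, with a bound
depending only on the degree (dimension count).
-/

open MeasureTheory Set Filter Topology
open scoped ENNReal NNReal

namespace Pool.Agent.W174.PC

open Pool.Agent.W770.PC

/-! ### one and two variables -/

theorem roots_fin (n : ℕ) (a : Fin n → ℝ) (ha : a ≠ 0) :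
    ∃ s : Finset ℝ, s.card ≤ n ∧ ∀ x : ℝ, ∑ i, a i * x ^ (i : ℕ) = 0 → x ∈ s := by
  obtain ⟨i, hi⟩ := Function.ne_iff.1 ha
  obtain ⟨p, hp⟩ : ∃ p : Polynomial ℝ, p = ∑ i : Fin n, Polynomial.C (a i) * Polynomial.X ^ (i : ℕ) :=
    ⟨_, rfl⟩
  have hc : p.coeff (i : ℕ) = a i := by
    rw [hp]
    simp only [Polynomial.finsetSum_coeff, Polynomial.coeff_C_mul, Polynomial.coeff_X_pow]
    rw [Finset.sum_eq_single i]
    · simp
    · intro b _ hb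
      rw [if_neg, mul_zero]
      intro h
      exact hb (Fin.ext h.symm)
    · simp
  have hp0 : p ≠ 0 := by
    rintro h
    rw [h, Polynomial.coeff_zero] at hc
    exact hi hc.symm
  have hd : p.natDegree ≤ n := by
    rw [hp]
    apply Polynomial.natDegree_sum_le_of_forall_le
    intro b _
    exact (Polynomial.natDegree_C_mul_X_pow_le _ _).trans b.2.le
  refine ⟨p.roots.toFinset, ?_, ?_⟩
  · exact (Multiset.toFinset_card_le _).trans ((Polynomial.card_roots' _).trans hd)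
  · intro x hx
    rw [Multiset.mem_toFinset, Polynomial.mem_roots hp0, Polynomial.IsRoot.def, hp,
      Polynomial.eval_finsetSum]
    simpa using hx

theorem null2 (n : ℕ) (c : Fin n × Fin n → ℝ) (hc : c ≠ 0) :
    ∀ᵐ v : ℝ × ℝ, ∑ q, c q * (v.1 ^ (q.1 : ℕ) * v.2 ^ (q.2 : ℕ)) ≠ 0 := by
  obtain ⟨q0, hq0⟩ := Function.ne_iff.1 hc
  rw [ae_iff]
  simp only [ne_eq, not_not]
  have hcont : Continuous (fun v : ℝ × ℝ => ∑ q, c q * (v.1 ^ (q.1 : ℕ) * v.2 ^ (q.2 : ℕ))) := by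
    fun_prop
  have hm : MeasurableSet {v : ℝ × ℝ | ∑ q, c q * (v.1 ^ (q.1 : ℕ) * v.2 ^ (q.2 : ℕ)) = 0} :=
    hcont.measurable (measurableSet_singleton (0 : ℝ))
  have hvol : (volume : Measure (ℝ × ℝ)) = (volume : Measure ℝ).prod volume := rfl
  rw [hvol, Measure.measure_prod_null hm]
  obtain ⟨s, -, hs⟩ := roots_fin n (fun i => c (i, q0.2)) (by
    apply Function.ne_iff.2
    exact ⟨q0.1, hq0⟩)
  have h1 : ∀ᵐ x : ℝ, x ∉ (s : Set ℝ) := by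
    rw [ae_iff]
    simp only [not_not]
    exact Finset.measure_zero s volume
  filter_upwards [h1] with x hx
  have h2 : (fun j : Fin n => ∑ i : Fin n, c (i, j) * x ^ (i : ℕ)) ≠ 0 := by
    apply Function.ne_iff.2
    refine ⟨q0.2, ?_⟩
    intro h
    exact hx (hs x h)
  obtain ⟨s', -, hs'⟩ := roots_fin n _ h2
  refine measure_mono_null ?_ (Finset.measure_zero s' volume)
  intro v hv
  apply hs'
  have hv' : ∑ q : Fin n × Fin n, c q * (x ^ (q.1 : ℕ) * v ^ (q.2 : ℕ)) = 0 := hv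
  rw [Fintype.sum_prod_type_right] at hv'
  rw [← hv']
  congr 1
  ext j
  rw [Finset.sum_mul]
  congr 1
  ext i
  ring

theorem fibre (E : ℕ) (c : Fin (E + 1) × (Fin (E + 1) × Fin (E + 1)) → ℝ) (hc : c ≠ 0) :
    ∀ᵐ v : ℝ × ℝ, ∃ s : Finset ℝ, s.card ≤ E + 1 ∧ ∀ x : ℝ,
      ∑ q, c q * (x ^ (q.1 : ℕ) * (v.1 ^ (q.2.1 : ℕ) * v.2 ^ (q.2.2 : ℕ))) = 0 → x ∈ s := by
  obtain ⟨q0, hq0⟩ := Function.ne_iff.1 hc
  have h1 := null2 (E + 1) (fun q => c (q0.1, q)) (by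
    apply Function.ne_iff.2
    exact ⟨q0.2, hq0⟩)
  filter_upwards [h1] with v hv
  have h2 : (fun a : Fin (E + 1) => ∑ q : Fin (E + 1) × Fin (E + 1),
      c (a, q) * (v.1 ^ (q.1 : ℕ) * v.2 ^ (q.2 : ℕ))) ≠ 0 := by
    apply Function.ne_iff.2
    exact ⟨q0.1, hv⟩
  obtain ⟨s, hs1, hs2⟩ := roots_fin (E + 1) _ h2
  refine ⟨s, hs1, ?_⟩
  intro x hx
  apply hs2
  rw [Fintype.sum_prod_type] at hx
  rw [← hx]
  congr 1
  ext a
  rw [Finset.sum_mul]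
  congr 1
  ext q
  ring

/-! ### the function spaces -/

/-- the index type of the generators -/
abbrev Ig (L : ℕ) : Type := (Fin (L + 1) × Fin (L + 1)) × Fin 2

/-- generators -/
noncomputable def gen (L : ℕ) (m : Ig L) (y : U0) : ℝ :=
  y.1.1 ^ (m.1.1 : ℕ) * y.1.2 ^ (m.1.2 : ℕ) * hh y.1 ^ (m.2 : ℕ)

/-- the functions `P + Q hh` on `U0` -/
noncomputable def Wp (L : ℕ) : Submodule ℝ (U0 → ℝ) := Submodule.span ℝ (Set.range (gen L))

theorem gen_mem {L : ℕ} (a b e : ℕ) (ha : a ≤ L) (hb : b ≤ L) (he : e ≤ 1) :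
    (fun y : U0 => y.1.1 ^ a * y.1.2 ^ b * hh y.1 ^ e) ∈ Wp L := by
  apply Submodule.subset_span
  exact ⟨((⟨a, by omega⟩, ⟨b, by omega⟩), ⟨e, by omega⟩), rfl⟩

theorem Wp_mono {L L' : ℕ} (h : L ≤ L') : Wp L ≤ Wp L' := by
  apply Submodule.span_le.mpr
  rintro _ ⟨m, rfl⟩
  exact gen_mem m.1.1 m.1.2 m.2 (by omega) (by omega) (by omega)

theorem gen_mul (h2 : S_hh) {L L' : ℕ} (m : Ig L) (m' : Ig L') :
    gen L m * gen L' m' ∈ Wp (L + L' + 2) := by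
  by_cases he : (m.2 : ℕ) + (m'.2 : ℕ) ≤ 1
  · have := gen_mem (L := L + L' + 2) (m.1.1 + m'.1.1) (m.1.2 + m'.1.2) (m.2 + m'.2)
      (by omega) (by omega) he
    convert this using 1
    ext y
    simp only [gen, Pi.mul_apply]
    rw [pow_add, pow_add, pow_add]; ring
  · have he2 : (m.2 : ℕ) + (m'.2 : ℕ) = 2 := by omega
    have k1 := gen_mem (L := L + L' + 2) (m.1.1 + m'.1.1) (m.1.2 + m'.1.2) 0
      (by omega) (by omega) (by omega)
    have k2 := gen_mem (L := L + L' + 2) (m.1.1 + m'.1.1 + 2) (m.1.2 + m'.1.2) 0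
      (by omega) (by omega) (by omega)
    have k3 := gen_mem (L := L + L' + 2) (m.1.1 + m'.1.1) (m.1.2 + m'.1.2 + 2) 0
      (by omega) (by omega) (by omega)
    have k4 := Submodule.sub_mem _ (Submodule.sub_mem _ k1 k2) k3
    convert k4 using 1
    ext y
    have hy := (h2.2.2.2.1 y.1 y.2).2.1
    simp only [gen, Pi.mul_apply, Pi.sub_apply, pow_zero, mul_one]
    calc y.1.1 ^ (m.1.1 : ℕ) * y.1.2 ^ (m.1.2 : ℕ) * hh y.1 ^ (m.2 : ℕ) *
          (y.1.1 ^ (m'.1.1 : ℕ) * y.1.2 ^ (m'.1.2 : ℕ) * hh y.1 ^ (m'.2 : ℕ))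
        = y.1.1 ^ ((m.1.1 : ℕ) + m'.1.1) * y.1.2 ^ ((m.1.2 : ℕ) + m'.1.2) *
            hh y.1 ^ ((m.2 : ℕ) + m'.2) := by rw [pow_add, pow_add, pow_add]; ring
      _ = _ := by rw [he2, hy]; ring

theorem mul_mem_Wp (h2 : S_hh) {L L' : ℕ} {f g : U0 → ℝ} (hf : f ∈ Wp L) (hg : g ∈ Wp L') :
    f * g ∈ Wp (L + L' + 2) := by
  induction hf using Submodule.span_induction with
  | mem f hf =>
    obtain ⟨m, rfl⟩ := hf
    induction hg using Submodule.span_induction with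
    | mem g hg =>
      obtain ⟨m', rfl⟩ := hg
      exact gen_mul h2 m m'
    | zero => rw [mul_zero]; exact Submodule.zero_mem _
    | add g1 g2 _ _ h1 h2 => rw [mul_add]; exact Submodule.add_mem _ h1 h2
    | smul c g1 _ h1 => rw [mul_smul_comm]; exact Submodule.smul_mem _ _ h1
  | zero => rw [zero_mul]; exact Submodule.zero_mem _
  | add f1 f2 _ _ h1 h2 => rw [add_mul]; exact Submodule.add_mem _ h1 h2
  | smul c f1 _ h1 => rw [smul_mul_assoc]; exact Submodule.smul_mem _ _ h1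

theorem one_mem_Wp (L : ℕ) : (1 : U0 → ℝ) ∈ Wp L := by
  have := gen_mem (L := L) 0 0 0 (by omega) (by omega) (by omega)
  convert this using 1
  ext y; simp

theorem pow_mem_Wp (h2 : S_hh) {L : ℕ} {f : U0 → ℝ} (hf : f ∈ Wp L) (n : ℕ) :
    f ^ n ∈ Wp (n * (L + 2)) := by
  induction n with
  | zero => rw [pow_zero]; exact one_mem_Wp _
  | succ n ih =>
    rw [pow_succ, Nat.succ_mul]
    exact mul_mem_Wp h2 ih hf

theorem hh_mem_Wp : (fun y : U0 => hh y.1) ∈ Wp 0 := by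
  have := gen_mem (L := 0) 0 0 1 (by omega) (by omega) (by omega)
  convert this using 1
  ext y; simp

theorem pf_mem (P : MvPolynomial (Fin 2) ℝ) (D e : ℕ) (hP : P.totalDegree ≤ D) (he : e ≤ 1) :
    (fun y : U0 => pf P y.1 * hh y.1 ^ e) ∈ Wp D := by
  have h1 : (fun y : U0 => pf P y.1 * hh y.1 ^ e) =
      ∑ d ∈ P.support, (P.coeff d) • (fun y : U0 => y.1.1 ^ (d 0) * y.1.2 ^ (d 1) * hh y.1 ^ e) := by
    ext y
    unfold pf
    rw [MvPolynomial.eval_eq', Finset.sum_mul, Finset.sum_apply]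
    apply Finset.sum_congr rfl
    intro d _
    rw [Fin.prod_univ_two]
    simp only [Pi.smul_apply, smul_eq_mul, Matrix.cons_val_zero, Matrix.cons_val_one]
    ring
  rw [h1]
  apply Submodule.sum_mem
  intro d hd
  apply Submodule.smul_mem
  apply gen_mem _ _ _ _ _ he
  · exact (MvPolynomial.monomial_le_degreeOf 0 hd).trans
      ((MvPolynomial.degreeOf_le_totalDegree P 0).trans hP)
  · exact (MvPolynomial.monomial_le_degreeOf 1 hd).trans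
      ((MvPolynomial.degreeOf_le_totalDegree P 1).trans hP)

theorem sf_mem (P Q : MvPolynomial (Fin 2) ℝ) (D : ℕ) (hP : P.totalDegree ≤ D)
    (hQ : Q.totalDegree ≤ D) : (fun y : U0 => sf P Q y.1) ∈ Wp D := by
  have h1 := Submodule.add_mem _ (pf_mem P D 0 hP (by omega)) (pf_mem Q D 1 hQ le_rfl)
  convert h1 using 1
  ext y
  simp [sf]

theorem finrank_Wp_le (L : ℕ) : Module.finrank ℝ (Wp L) ≤ 2 * (L + 1) ^ 2 := by
  have := finrank_range_le_card (R := ℝ) (gen L)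
  rw [Set.finrank] at this
  calc Module.finrank ℝ (Wp L) ≤ Fintype.card (Ig L) := this
    _ = 2 * (L + 1) ^ 2 := by simp [Ig]; ring

instance (L : ℕ) : FiniteDimensional ℝ (Wp L) :=
  FiniteDimensional.span_of_finite ℝ (Set.finite_range _)

/-- dimension count -/
theorem relation (h2 : S_hh) (D E : ℕ) (hE : 2 * (2 * D + 19) ^ 2 ≤ E) (z F1 F2 : U0 → ℝ)
    (hz : z ∈ Wp 1) (hF1 : F1 ∈ Wp (D + 4)) (hF2 : F2 ∈ Wp (D + 4)) :
    ∃ c : Fin (E + 1) × (Fin (E + 1) × Fin (E + 1)) → ℝ, c ≠ 0 ∧ ∀ y : U0,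
      ∑ q, c q * (z y ^ (q.1 : ℕ) * (F1 y ^ (q.2.1 : ℕ) * (F2 y ^ (q.2.2 : ℕ) *
        hh y.1 ^ (2 * E - (q.2.1 : ℕ) - (q.2.2 : ℕ))))) = 0 := by
  obtain ⟨M, hM⟩ : ∃ M, M = E * (2 * D + 19) + 6 := ⟨_, rfl⟩
  have hmem : ∀ q : Fin (E + 1) × (Fin (E + 1) × Fin (E + 1)),
      (fun y : U0 => z y ^ (q.1 : ℕ) * (F1 y ^ (q.2.1 : ℕ) * (F2 y ^ (q.2.2 : ℕ) *
        hh y.1 ^ (2 * E - (q.2.1 : ℕ) - (q.2.2 : ℕ))))) ∈ Wp M := by
    intro q
    have a1 := q.1.2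
    have a2 := q.2.1.2
    have a3 := q.2.2.2
    have k1 : z ^ (q.1 : ℕ) ∈ Wp (3 * E) :=
      Wp_mono (by omega) (pow_mem_Wp h2 hz (q.1 : ℕ))
    have k2 : F1 ^ (q.2.1 : ℕ) ∈ Wp (E * (D + 6)) :=
      Wp_mono (Nat.mul_le_mul_right _ (by omega)) (pow_mem_Wp h2 hF1 (q.2.1 : ℕ))
    have k3 : F2 ^ (q.2.2 : ℕ) ∈ Wp (E * (D + 6)) :=
      Wp_mono (Nat.mul_le_mul_right _ (by omega)) (pow_mem_Wp h2 hF2 (q.2.2 : ℕ))
    have k4 : (fun y : U0 => hh y.1) ^ (2 * E - (q.2.1 : ℕ) - (q.2.2 : ℕ)) ∈ Wp (4 * E) :=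
      Wp_mono (by omega) (pow_mem_Wp h2 hh_mem_Wp _)
    have k5 := mul_mem_Wp h2 k1 (mul_mem_Wp h2 k2 (mul_mem_Wp h2 k3 k4))
    have k6 : 3 * E + (E * (D + 6) + (E * (D + 6) + 4 * E + 2) + 2) + 2 = M := by
      rw [hM]; ring
    rw [k6] at k5
    exact k5
  let T : (Fin (E + 1) × (Fin (E + 1) × Fin (E + 1)) → ℝ) →ₗ[ℝ] Wp M :=
    { toFun := fun c => ∑ q, c q • (⟨_, hmem q⟩ : Wp M)
      map_add' := by
        intro c c'
        simp only [Pi.add_apply, add_smul, Finset.sum_add_distrib]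
      map_smul' := by
        intro r c
        simp only [Pi.smul_apply, smul_eq_mul, mul_smul, Finset.smul_sum, RingHom.id_apply] }
  have hlt : Module.finrank ℝ (Wp M)
      < Module.finrank ℝ (Fin (E + 1) × (Fin (E + 1) × Fin (E + 1)) → ℝ) := by
    rw [Module.finrank_fintype_fun_eq_card, Fintype.card_prod, Fintype.card_prod, Fintype.card_fin]
    refine lt_of_le_of_lt (finrank_Wp_le _) ?_
    have e1 : M + 1 ≤ (E + 1) * (2 * D + 19) := by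
      rw [hM]; ring_nf; omega
    have e2 : (M + 1) ^ 2 ≤ ((E + 1) * (2 * D + 19)) ^ 2 := Nat.pow_le_pow_left e1 2
    calc 2 * (M + 1) ^ 2 ≤ 2 * ((E + 1) * (2 * D + 19)) ^ 2 := Nat.mul_le_mul_left 2 e2
      _ = (E + 1) ^ 2 * (2 * (2 * D + 19) ^ 2) := by ring
      _ ≤ (E + 1) ^ 2 * E := Nat.mul_le_mul_left _ hE
      _ < (E + 1) ^ 2 * (E + 1) := Nat.mul_lt_mul_of_pos_left (Nat.lt_succ_self E) (by positivity)
      _ = (E + 1) * ((E + 1) * (E + 1)) := by ring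
  have hker := LinearMap.ker_ne_bot_of_finrank_lt (f := T) hlt
  obtain ⟨c, hc, hc0⟩ := Submodule.exists_mem_ne_zero_of_ne_bot hker
  refine ⟨c, hc0, ?_⟩
  intro x
  have h1 : (T c : U0 → ℝ) x = 0 := by
    rw [LinearMap.mem_ker.mp hc]; rfl
  rw [← h1]
  show _ = ((∑ q, c q • (⟨_, hmem q⟩ : Wp M) : Wp M) : U0 → ℝ) x
  rw [Submodule.coe_sum, Finset.sum_apply]
  rfl

/-- division by the powers of `hh` -/
theorem divide (E : ℕ) (c : Fin (E + 1) × (Fin (E + 1) × Fin (E + 1)) → ℝ)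
    (z g1 g2 H F1 F2 : ℝ) (hH : 0 < H) (hF1 : H * g1 = F1) (hF2 : H * g2 = F2)
    (h : ∑ q, c q * (z ^ (q.1 : ℕ) * (F1 ^ (q.2.1 : ℕ) * (F2 ^ (q.2.2 : ℕ) *
        H ^ (2 * E - (q.2.1 : ℕ) - (q.2.2 : ℕ))))) = 0) :
    ∑ q, c q * (z ^ (q.1 : ℕ) * (g1 ^ (q.2.1 : ℕ) * g2 ^ (q.2.2 : ℕ))) = 0 := by
  have h1 : (∑ q, c q * (z ^ (q.1 : ℕ) * (g1 ^ (q.2.1 : ℕ) * g2 ^ (q.2.2 : ℕ)))) * H ^ (2 * E) =
      0 := by
    rw [← h, Finset.sum_mul]
    apply Finset.sum_congr rfl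
    intro q _
    have a2 := q.2.1.2
    have a3 := q.2.2.2
    have e1 : H ^ (2 * E) = H ^ (q.2.1 : ℕ) * H ^ (q.2.2 : ℕ) *
        H ^ (2 * E - (q.2.1 : ℕ) - (q.2.2 : ℕ)) := by
      rw [← pow_add, ← pow_add]
      congr 1
      omega
    rw [← hF1, ← hF2, e1, mul_pow, mul_pow]
    ring
  rcases mul_eq_zero.1 h1 with h2 | h2
  · exact h2
  · exact absurd h2 (by positivity)

theorem sfib_thm (h1 : S_sd) (h2 : S_hh) : S_sfib := by
  intro D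
  obtain ⟨E, hE⟩ : ∃ E, E = 2 * (2 * D + 19) ^ 2 := ⟨_, rfl⟩
  refine ⟨(E + 1) * (E + 1), fun A B hA hB => ?_⟩
  obtain ⟨-, -, ⟨A1, B1, A2, B2, dA1, dB1, dA2, dB2, hd⟩, -⟩ := h1 D A B hA hB
  have m1 : (fun y : U0 => y.1.1) ∈ Wp 1 := by
    have := gen_mem (L := 1) 1 0 0 (by omega) (by omega) (by omega)
    convert this using 1
    ext y; simp
  have m2 : (fun y : U0 => y.1.2) ∈ Wp 1 := by
    have := gen_mem (L := 1) 0 1 0 (by omega) (by omega) (by omega)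
    convert this using 1
    ext y; simp
  obtain ⟨c, hc0, hc⟩ := relation h2 D E hE.ge _ _ _ m1 (sf_mem A1 B1 _ dA1 dB1)
    (sf_mem A2 B2 _ dA2 dB2)
  obtain ⟨c', hc0', hc'⟩ := relation h2 D E hE.ge _ _ _ m2 (sf_mem A1 B1 _ dA1 dB1)
    (sf_mem A2 B2 _ dA2 dB2)
  filter_upwards [fibre E c hc0, fibre E c' hc0'] with v hv hv'
  obtain ⟨s, hs1, hs2⟩ := hv
  obtain ⟨s', hs1', hs2'⟩ := hv'
  have hsub : {y : ℝ × ℝ | y ∈ U0 ∧ (d1 (sf A B) y, d2 (sf A B) y) = v} ⊆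
      ((s ×ˢ s' : Finset (ℝ × ℝ)) : Set (ℝ × ℝ)) := by
    rintro y ⟨hy, hyv⟩
    subst hyv
    have hH := (h2.2.2.2.1 y hy).1
    obtain ⟨e1, e2⟩ := hd y hy
    rw [Finset.mem_coe, Finset.mem_product]
    exact ⟨hs2 y.1 (divide E c y.1 _ _ _ _ _ hH e1 e2 (hc ⟨y, hy⟩)),
      hs2' y.2 (divide E c' y.2 _ _ _ _ _ hH e1 e2 (hc' ⟨y, hy⟩))⟩
  refine (Set.encard_le_encard hsub).trans ?_
  rw [Set.encard_coe_eq_coe_finsetCard, Finset.card_product]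
  exact_mod_cast Nat.mul_le_mul hs1 hs1'

end Pool.Agent.W174.PC
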